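import Pool.Agent.Y560.TF.Stm

/-!
Project TF: facts on variations in place of a class.
-/

set_option autoImplicit false

namespace Pool.Agent.Y547.TF

open Set MeasureTheory
open Pool.Agent.H899R2.VP (St Adj PIso BF IsoOn idOn inv comp zipSet)
open Pool.Agent.H533R2.VO (RS lift put OS Ic RIso Dich VC BlkV S_FINAL)
open Pool.Agent.H566P (ar R2 v2 a0 a1 lt ac co mk S_ACC S_MSG)
open Pool.Agent.Y560.TG (acc msg lt_mk ac_mk co_mk R2_ext piso_iff riso_iff riso_isoOn meas_lt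
  meas_ac meas_co meas_into cont_into piso_lt piso_ac piso_co piso_eq ex lt_ex ac_ex co_ex_even
  co_ex_odd piso_ex orb orb_ex Nm Off Sm Thin Few bf_trans0 bf_symm0 iso_trans0 iso_symm0
  iso_refl0 S_EXT S_GL S_MAT S_BP mat pick Se)
open Pool.Agent.Y560.TF

theorem t_OFF (hB : S_TBF) (hT : S_TRQ) (hG : S_GEO) : S_OFF := by
  intro Γ _ g hg R V O hR hinv hoff hbf
  obtain ⟨o1, o2, o3⟩ := hoff
  obtain ⟨t1, t2, -⟩ := hT
  have hV : TR g V := hB Γ g hg R V hR (hbf.subset (empty_subset _))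
  have hGR := hG Γ g hg R hR
  have hM : ∀ q : Set (ℕ × ℕ), idOn Oᶜ ⊆ q → PIso (lift R) (lift V) q → ∀ x x', (x, x') ∈ q →
      (x ∈ O ↔ x' ∈ O) ∧ (x' ∉ O → x = x') := by
    intro q hq hp x x' hx
    have h2 : x' ∉ O → x = x' := fun h => (piso_eq hp hx (hq ⟨rfl, h⟩)).2 rfl
    refine ⟨⟨fun h => ?_, fun h => ?_⟩, h2⟩
    · by_contra h1
      exact h1 (h2 h1 ▸ h)
    · by_contra h1
      exact h1 ((piso_eq hp hx (hq ⟨rfl, h1⟩)).1 rfl ▸ h)
  have r9 : (9 : Ordinal.{0}) < Ordinal.omega0 := by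
    exact_mod_cast Ordinal.natCast_lt_omega0 9
  have r89 : (8 : Ordinal.{0}) < 9 := by
    exact_mod_cast (by norm_num : (8 : ℕ) < 9)
  have r3 : (3 : Ordinal.{0}) ≤ Ordinal.omega0 := by
    exact_mod_cast (Ordinal.natCast_lt_omega0 3).le
  -- two moves
  have hmv : ∀ y e t, y ∉ O → ∃ e0 t0, (e0 ∈ O ↔ e ∈ O) ∧ (e ∉ O → e0 = e) ∧
      (t0 ∈ O ↔ t ∈ O) ∧ (t ∉ O → t0 = t) ∧ (t0 ∈ Ob R y e0 ↔ t ∈ Ob V y e) := by
    intro y e t hy
    obtain ⟨e0, -, h1⟩ := hbf.back r9 (mem_univ e)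
    obtain ⟨t0, -, h2⟩ := h1.back r89 (mem_univ t)
    have hq : idOn Oᶜ ⊆ insert (t0, t) (insert (e0, e) (idOn Oᶜ)) :=
      (subset_insert _ _).trans (subset_insert _ _)
    have he := hM _ hq h2.piso e0 e (by simp)
    have ht := hM _ hq h2.piso t0 t (by simp)
    exact ⟨e0, t0, he.1, he.2, ht.1, ht.2,
      t2 R V _ y y e0 e t0 t h2 (hq ⟨rfl, hy⟩) (by simp) (by simp)⟩
  refine ⟨hV, ?_, ?_, ?_, ?_, ?_⟩
  · intro n x z h
    by_cases hx : x ∈ O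
    · by_cases hz : z ∈ O
      · exact ⟨fun _ => hz, fun _ => hx⟩
      · exact hinv n x z ((o2 n x z fun h' => hz h'.2).1 h)
    · exact hinv n x z ((o2 n x z fun h' => hx h'.1).1 h)
  · intro y z hyz hO e he
    have hy : y ∉ O := by
      rw [hO]
      exact fun h => hyz ((hGR.out y z).1.1 h)
    ext t
    obtain ⟨e0, t0, h1, -, h3, -, h5⟩ := hmv y e t hy
    have he0 : e0 ∈ Ob R y z := hO ▸ h1.2 he
    rw [← h5, hGR.eqv y z e0 he0, ← hO, h3]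
  · intro y z hy hz hd
    ext t
    obtain ⟨e0, t0, -, h2, h3, h4, h5⟩ := hmv y z t hy
    rw [h2 hz] at h5
    rw [← h5]
    by_cases ht : t ∈ O
    · have h6 : t0 ∉ Ob R y z := fun h => Set.disjoint_left.1 hd h (h3.2 ht)
      have h7 : t ∉ Ob R y z := fun h => Set.disjoint_left.1 hd h ht
      exact ⟨fun h => absurd h h6, fun h => absurd h h7⟩
    · rw [h4 ht]
  · intro y z hy hsub e he
    ext t
    obtain ⟨e0, t0, h1, h2, h3, h4, h5⟩ := hmv y e t hy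
    have he0 : e0 ∈ Ob R y z := by
      by_cases h : e ∈ O
      · exact hsub (h1.2 h)
      · rw [h2 h]; exact he
    rw [← h5, hGR.eqv y z e0 he0]
    by_cases ht : t ∈ O
    · exact ⟨fun _ => hsub ht, fun _ => hsub (h3.2 ht)⟩
    · rw [h4 ht]
  · intro y v m hy hv
    exact (t1 R V _ y y v v m (hbf.mono r3) ⟨rfl, hy⟩ ⟨rfl, hv⟩).symm

end Pool.Agent.Y547.TF
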