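import Pool.Agent.Y560.TF.Stm

/-!
Project TF: the class of the structures is closed under back-and-forth equivalence of rank `ω`.
-/

set_option autoImplicit false

namespace Pool.Agent.Y547.TF

open Set MeasureTheory
open Pool.Agent.H899R2.VP (St Adj PIso BF IsoOn idOn inv comp zipSet)
open Pool.Agent.H533R2.VO (RS lift put OS Ic RIso Dich VC BlkV S_FINAL)
open Pool.Agent.H566P (ar R2 v2 a0 a1 lt ac co mk S_ACC S_MSG)
open Pool.Agent.Y560.TG (acc msg lt_mk ac_mk co_mk R2_ext piso_iff riso_iff riso_isoOn meas_lt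
  meas_ac meas_co meas_into cont_into piso_lt piso_ac piso_co piso_eq ex lt_ex ac_ex co_ex_even
  co_ex_odd piso_ex orb orb_ex Nm Off Sm Thin Few bf_trans0 bf_symm0 iso_trans0 iso_symm0
  iso_refl0 S_EXT S_GL S_MAT S_BP mat pick Se)
open Pool.Agent.Y560.TF

variable {R R' : R2} {p : Set (ℕ × ℕ)}

lemma bk (k : ℕ) (h : BF (lift R) (lift R') univ univ ((k + 1 : ℕ) : Ordinal.{0}) p) (y : ℕ) :
    ∃ x, BF (lift R) (lift R') univ univ ((k : ℕ) : Ordinal.{0}) (insert (x, y) p) := by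
  obtain ⟨x, -, hx⟩ := h.back (o' := ((k : ℕ) : Ordinal.{0}))
    (by exact_mod_cast Nat.lt_succ_self k) (mem_univ y)
  exact ⟨x, hx⟩

lemma ft (k : ℕ) (h : BF (lift R) (lift R') univ univ ((k + 1 : ℕ) : Ordinal.{0}) p) (x : ℕ) :
    ∃ y, BF (lift R) (lift R') univ univ ((k : ℕ) : Ordinal.{0}) (insert (x, y) p) := by
  obtain ⟨y, -, hy⟩ := h.forth (o' := ((k : ℕ) : Ordinal.{0}))
    (by exact_mod_cast Nat.lt_succ_self k) (mem_univ x)
  exact ⟨y, hy⟩

lemma back4 (h : BF (lift R) (lift R') univ univ Ordinal.omega0 ∅) (x y z u : ℕ) :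
    ∃ (x₀ y₀ z₀ u₀ : ℕ) (q : Set (ℕ × ℕ)), BF (lift R) (lift R') univ univ ((1 : ℕ) : Ordinal.{0}) q ∧
      (x₀, x) ∈ q ∧ (y₀, y) ∈ q ∧ (z₀, z) ∈ q ∧ (u₀, u) ∈ q := by
  have h5 : BF (lift R) (lift R') univ univ ((4 + 1 : ℕ) : Ordinal.{0}) ∅ :=
    h.mono (Ordinal.nat_lt_omega0 5).le
  obtain ⟨x₀, h4⟩ := bk 4 h5 x
  obtain ⟨y₀, h3⟩ := bk 3 h4 y
  obtain ⟨z₀, h2⟩ := bk 2 h3 z
  obtain ⟨u₀, h1⟩ := bk 1 h2 u
  refine ⟨x₀, y₀, z₀, u₀, _, h1, ?_, ?_, ?_, ?_⟩ <;> simp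

theorem t_TBF : S_TBF := by
  classical
  intro Γ _ g hg R R' hR h
  obtain ⟨t, hla⟩ := hR
  have hac := fun n x y => hla.act n x y
  have irr : ∀ x, ¬ lt R' x x := by
    intro x hx
    obtain ⟨a, b, c, d, q, hq, ha, -, -, -⟩ := back4 h x x x x
    exact hla.irr a ((piso_lt hq.piso ha ha).2 hx)
  have tr : ∀ x y z, lt R' x y → lt R' y z → lt R' x z := by
    intro x y z h1 h2
    obtain ⟨a, b, c, d, q, hq, ha, hb, hc, -⟩ := back4 h x y z z
    exact (piso_lt hq.piso ha hc).1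
      (hla.tr a b c ((piso_lt hq.piso ha hb).2 h1) ((piso_lt hq.piso hb hc).2 h2))
  have sem : ∀ x y z, lt R' x z → lt R' y z → x = y ∨ lt R' x y ∨ lt R' y x := by
    intro x y z h1 h2
    obtain ⟨a, b, c, d, q, hq, ha, hb, hc, -⟩ := back4 h x y z x
    rcases hla.sem a b c ((piso_lt hq.piso ha hc).2 h1) ((piso_lt hq.piso hb hc).2 h2) with
      h3 | h3 | h3
    · exact Or.inl ((piso_eq hq.piso ha hb).1 h3)
    · exact Or.inr (Or.inl ((piso_lt hq.piso ha hb).1 h3))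
    · exact Or.inr (Or.inr ((piso_lt hq.piso hb ha).1 h3))
  have ex : ∀ n x, ∃ y, ac R' n x y := by
    intro n x
    obtain ⟨a, b, c, d, q, hq, ha, -, -, -⟩ := back4 h x x x x
    obtain ⟨y, hy⟩ := ft 0 hq (t (g n) a)
    exact ⟨y, (piso_ac hy.piso (mem_insert_of_mem _ ha) (mem_insert _ _)).1
      ((hac n a _).2 rfl)⟩
  have uni : ∀ n x y y', ac R' n x y → ac R' n x y' → y = y' := by
    intro n x y y' h1 h2
    obtain ⟨a, b, c, d, q, hq, ha, hb, hc, -⟩ := back4 h x y y' x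
    have e1 := (hac n a b).1 ((piso_ac hq.piso ha hb).2 h1)
    have e2 := (hac n a c).1 ((piso_ac hq.piso ha hc).2 h2)
    exact (piso_eq hq.piso hb hc).1 (e1.symm.trans e2)
  have one : ∀ k x, g k = 1 → ac R' k x x := by
    intro k x hk
    obtain ⟨a, b, c, d, q, hq, ha, -, -, -⟩ := back4 h x x x x
    refine (piso_ac hq.piso ha ha).1 ((hac k a a).2 ?_)
    rw [hk, hla.one]
  have mul : ∀ k n m x y z, g k = g n * g m → ac R' m x y → ac R' n y z → ac R' k x z := by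
    intro k n m x y z hk h1 h2
    obtain ⟨a, b, c, d, q, hq, ha, hb, hc, -⟩ := back4 h x y z z
    have e1 := (hac m a b).1 ((piso_ac hq.piso ha hb).2 h1)
    have e2 := (hac n b c).1 ((piso_ac hq.piso hb hc).2 h2)
    refine (piso_ac hq.piso ha hc).1 ((hac k a c).2 ?_)
    rw [hk, hla.mul, e1, e2]
  have cong : ∀ n m x y, g n = g m → ac R' n x y → ac R' m x y := by
    intro n m x y hnm h1
    obtain ⟨a, b, c, d, q, hq, ha, hb, -, -⟩ := back4 h x y x x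
    have e1 := (hac n a b).1 ((piso_ac hq.piso ha hb).2 h1)
    refine (piso_ac hq.piso ha hb).1 ((hac m a b).2 ?_)
    rw [← hnm, e1]
  have mono : ∀ n x y x' y', lt R' x y → ac R' n x x' → ac R' n y y' → lt R' x' y' := by
    intro n x y x' y' h1 h2 h3
    obtain ⟨a, b, c, d, q, hq, ha, hb, hc, hd⟩ := back4 h x y x' y'
    have e1 := (hac n a c).1 ((piso_ac hq.piso ha hc).2 h2)
    have e2 := (hac n b d).1 ((piso_ac hq.piso hb hd).2 h3)
    have e3 := (piso_lt hq.piso ha hb).2 h1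
    refine (piso_lt hq.piso hc hd).1 ?_
    rw [← e1, ← e2]
    exact hla.mono _ _ _ e3
  -- the action on `R'`
  choose ν hν using hg
  let t' : Γ → ℕ → ℕ := fun γ x => (ex (ν γ) x).choose
  have ht' : ∀ γ x, ac R' (ν γ) x (t' γ x) := fun γ x => (ex (ν γ) x).choose_spec
  have act : ∀ n x y, ac R' n x y ↔ t' (g n) x = y := by
    intro n x y
    constructor
    · intro h1
      exact uni _ _ _ _ (ht' (g n) x) (cong n (ν (g n)) x y (hν _).symm h1)
    · rintro rfl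
      exact cong (ν (g n)) n x _ (hν _) (ht' (g n) x)
  refine ⟨t', ⟨irr, tr, sem, ?_, ?_, ?_, act⟩⟩
  · intro x
    exact uni _ _ _ _ (ht' 1 x) (one _ _ (hν 1))
  · intro γ δ x
    refine uni _ _ _ _ (ht' (γ * δ) x) (mul _ (ν γ) (ν δ) x (t' δ x) _ ?_ (ht' δ x) (ht' γ _))
    rw [hν, hν, hν]
  · intro γ x y h1
    exact mono (ν γ) x y _ _ h1 (ht' γ x) (ht' γ y)

end Pool.Agent.Y547.TF
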